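import Pool.Agent.H64.TP.Main
import Pool.Agent.H57.CF.UPF

/-!
# THEOREM M (no contracting scale): definitions on the sphere and the statement for the families

`HolAt`, `Unv`: univalent maps of the unit disc into the sphere. `Vp`: the critical neighbourhoods. `Cw f a`: the critical
points in the Julia set whose orbit closure contains a critical point of the limit set of `a`. `CSc`: contracting scales.
`NCS`: the property of the text. `MStm`: the statement for the families.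
-/

set_option autoImplicit false

open Filter Topology Set

namespace Pool.Agent.H56.MM

open Pool.Agent.H32.BT (IsCrit)
open Pool.Agent.H44.RC (JS Om)
open Pool.Agent.H64.TP (KK)
open Pool.Agent.H35.EX (chord)

/-- `φ` is holomorphic at `u` as a map into the sphere: near `u` it is a holomorphic function or the inverse of one -/
def HolAt (φ : ℂ → OnePoint ℂ) (u : ℂ) : Prop :=
  ∃ g : ℂ → ℂ, AnalyticAt ℂ g u ∧ ((∀ᶠ w in 𝓝 u, φ w = (g w : OnePoint ℂ)) ∨
    ∀ᶠ w in 𝓝 u, (g w = 0 → φ w = OnePoint.infty) ∧ (g w ≠ 0 → φ w = (((g w)⁻¹ : ℂ) : OnePoint ℂ)))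

/-- `φ` is univalent on the unit disc -/
def Unv (φ : ℂ → OnePoint ℂ) : Prop :=
  InjOn φ (Metric.ball 0 1) ∧ ∀ u ∈ Metric.ball (0 : ℂ) 1, HolAt φ u

/-- the component at `c` of the preimage of `φ(D)` -/
def Vp (f : OnePoint ℂ → OnePoint ℂ) (φ : ℂ → OnePoint ℂ) (c : OnePoint ℂ) : Set (OnePoint ℂ) :=
  connectedComponentIn (f ⁻¹' (φ '' Metric.ball 0 1)) c

/-- the critical points in the Julia set whose orbit closure contains a critical point of the limit set of `a` -/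
def Cw (f : OnePoint ℂ → OnePoint ℂ) (a : OnePoint ℂ) : Set (OnePoint ℂ) :=
  {c | IsCrit f c ∧ c ∈ JS f ∧ ∃ b ∈ closure (range fun n : ℕ => f^[n] c), IsCrit f b ∧ b ∈ Om f a}

/-- `f` contracts by the factor `k` at the scale `φ`: the univalent pull backs of the `V c'` at the `f c` are in
`φ c (k D)`, `c, c' ∈ S` -/
def CSc (f : OnePoint ℂ → OnePoint ℂ) (S : Set (OnePoint ℂ)) (k : ℝ) (φ : OnePoint ℂ → ℂ → OnePoint ℂ) : Prop :=
  ∀ c ∈ S, ∀ c' ∈ S, ∀ (n : ℕ) (Z : Set (OnePoint ℂ)), IsOpen Z → f c ∈ Z →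
    InjOn f^[n] Z → f^[n] '' Z = Vp f (φ c') c' → Z ⊆ φ c '' Metric.ball 0 k

/-- the property of the text -/
def NCS (f : OnePoint ℂ → OnePoint ℂ) : Prop :=
  ∀ a, IsCrit f a → a ∈ JS f →
  (IsTotallyDisconnected (KK f) ∨ ∀ A ⊆ Om f a, IsClosed A → A.Nonempty → (∀ x ∈ A, f x ∈ A) → ∃ c ∈ A, IsCrit f c) →
  ∀ k : ℝ, k < 1 → ∃ ε : ℝ, 0 < ε ∧ ∀ φ : OnePoint ℂ → ℂ → OnePoint ℂ,
    (∀ c ∈ Cw f a, Unv (φ c) ∧ φ c 0 = f c ∧ ∀ u ∈ Metric.ball (0 : ℂ) 1, chord (φ c u) (f c) < ε) →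
    ¬ CSc f (Cw f a) k φ

/-- the statement for the families -/
def MStm : Prop := ∀ (d m : ℕ), 2 ≤ d → m ≤ d → ∀ x : Pool.Agent.H47.NM.Em d m,
  IsCoprime (Pool.Agent.H79.Eul.pol x.1) (Pool.Agent.H79.Eul.pol x.2) →
  max (Pool.Agent.H79.Eul.pol x.1).natDegree (Pool.Agent.H79.Eul.pol x.2).natDegree = d →
  ¬ Pool.Agent.H57.CF.UpF d m x → NCS (Pool.Agent.H79.Par.Rf (Pool.Agent.H47.NM.ex d m x))

end Pool.Agent.H56.MM
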